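import Pool.Agent.Helper76.FT.GoalsG

set_option autoImplicit false

namespace Pool.Agent.Helper65.FT

open Complex Set Filter Topology
open Pool.Agent.Helper76.FT

variable {S : Sys}

lemma hab (h : S.Ok) : S.a ≤ S.b := le_of_lt (lt_trans h.ha h.hb)

lemma V_cont_Y (h : S.Ok) (q : ℝ) {t : ℝ} (ht : t ∈ Icc (0:ℝ) 1) :
    ContinuousOn (fun Y => S.V Y q t) (Icc S.a S.b) := by
  have h1 : ContinuousOn (fun Y : ℝ => ((Y, q, t) : ℝ × ℝ × ℝ)) (Icc S.a S.b) := by fun_prop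
  exact h.Vcont.comp h1 (fun Y hY => ⟨hY, mem_univ _, ht⟩)

lemma V_cont_q (h : S.Ok) {Y : ℝ} (hY : Y ∈ Icc S.a S.b) {t : ℝ} (ht : t ∈ Icc (0:ℝ) 1) :
    Continuous (fun q => S.V Y q t) := by
  have h1 : ContinuousOn (fun q : ℝ => ((Y, q, t) : ℝ × ℝ × ℝ)) univ := by fun_prop
  have h2 := h.Vcont.comp h1 (fun q _ => ⟨hY, mem_univ _, ht⟩)
  exact continuousOn_univ.1 h2

lemma V_mono (h : S.Ok) {Y Y' : ℝ} (hY : Y ∈ Icc S.a S.b) (hY' : Y' ∈ Icc S.a S.b) (hle : Y ≤ Y')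
    (q : ℝ) {t : ℝ} (ht : t ∈ Icc (0:ℝ) 1) : S.V Y q t ≤ S.V Y' q t := by
  rcases eq_or_lt_of_le hle with he | hl
  · rw [he]
  · exact (h.Vmono Y hY Y' hY' hl q t ht).le

lemma a_mem (h : S.Ok) : S.a ∈ Icc S.a S.b := ⟨le_refl _, hab h⟩
lemma b_mem (h : S.Ok) : S.b ∈ Icc S.a S.b := ⟨hab h, le_refl _⟩
lemma z_mem (h : S.Ok) : (0:ℝ) ∈ Icc S.a S.b := ⟨h.ha.le, h.hb.le⟩

lemma leaf_of_reg (h : S.Ok) {t : ℝ} (ht : t ∈ Icc (0:ℝ) 1) {y : ℝ × ℝ} (hy : y ∈ S.Reg t) :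
    ∃ Y ∈ Icc S.a S.b, y.2 = S.V Y y.1 t := by
  have h1 := intermediate_value_Icc (hab h) (V_cont_Y h y.1 ht)
  obtain ⟨Y, hY, he⟩ := h1 ⟨hy.1, hy.2⟩
  exact ⟨Y, hY, he.symm⟩

lemma reg_of_leaf (h : S.Ok) {t : ℝ} (ht : t ∈ Icc (0:ℝ) 1) (q : ℝ) {Y : ℝ}
    (hY : Y ∈ Icc S.a S.b) : (q, S.V Y q t) ∈ S.Reg t :=
  ⟨V_mono h (a_mem h) hY hY.1 q ht, V_mono h hY (b_mem h) hY.2 q ht⟩

lemma reg_move (h : S.Ok) {t : ℝ} (ht : t ∈ Icc (0:ℝ) 1) {s : ℝ} (hs : s ∈ Icc (0:ℝ) 1)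
    {y : ℝ × ℝ} (hy : y ∈ S.Reg t) : (y.1 + (s - t) * y.2, y.2) ∈ S.Reg s := by
  obtain ⟨Y, hY, he⟩ := leaf_of_reg h ht hy
  have h1 := reg_of_leaf h hs (y.1 + (s - t) * y.2) hY
  have h2 : S.V Y (y.1 + (s - t) * y.2) s = y.2 := by
    rw [he]
    exact h.Vline Y hY y.1 s hs t ht
  rw [h2] at h1
  exact h1

lemma reg_scale (h : S.Ok) {t : ℝ} (ht : t ∈ Icc (0:ℝ) 1) {s : ℝ} (hs : s ∈ Icc (0:ℝ) 1)
    {y : ℝ × ℝ} (hy : y ∈ S.Reg t) : (y.1, s * y.2) ∈ S.Reg t := by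
  have h1 : S.V S.a y.1 t ≤ 0 := by
    have := V_mono h (a_mem h) (z_mem h) h.ha.le y.1 ht
    rwa [h.Vzero y.1 t ht] at this
  have h2 : 0 ≤ S.V S.b y.1 t := by
    have := V_mono h (z_mem h) (b_mem h) h.hb.le y.1 ht
    rwa [h.Vzero y.1 t ht] at this
  have h3 : S.V S.a y.1 t ≤ y.2 := hy.1
  have h4 : y.2 ≤ S.V S.b y.1 t := hy.2
  constructor
  · show S.V S.a y.1 t ≤ s * y.2
    rcases le_or_gt 0 y.2 with h5 | h5
    · exact h1.trans (mul_nonneg hs.1 h5)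
    · nlinarith [hs.1, hs.2]
  · show s * y.2 ≤ S.V S.b y.1 t
    rcases le_or_gt 0 y.2 with h5 | h5
    · nlinarith [hs.1, hs.2]
    · exact (mul_nonpos_of_nonneg_of_nonpos hs.1 h5.le).trans h2

lemma V_periodic (h : S.Ok) {Y : ℝ} (hY : Y ∈ Icc S.a S.b) {t : ℝ} (ht : t ∈ Icc (0:ℝ) 1) :
    Function.Periodic (fun q => S.V Y q t) 1 := fun q => h.Vper Y hY q t ht

lemma V_int (h : S.Ok) {Y : ℝ} (hY : Y ∈ Icc S.a S.b) {t : ℝ} (ht : t ∈ Icc (0:ℝ) 1) (q : ℝ)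
    (k : ℤ) : S.V Y (q + k) t = S.V Y q t := by
  have h1 := (V_periodic h hY ht).int_mul k q
  simpa using h1

lemma V_bdd (h : S.Ok) : ∃ M : ℝ, ∀ Y ∈ Icc S.a S.b, ∀ t ∈ Icc (0:ℝ) 1, ∀ q : ℝ,
    |S.V Y q t| ≤ M := by
  have hK : IsCompact (Icc S.a S.b ×ˢ (Icc (0:ℝ) 1 ×ˢ Icc (0:ℝ) 1)) :=
    isCompact_Icc.prod (isCompact_Icc.prod isCompact_Icc)
  have hc : ContinuousOn (fun z : ℝ × ℝ × ℝ => S.V z.1 z.2.1 z.2.2)
      (Icc S.a S.b ×ˢ (Icc (0:ℝ) 1 ×ˢ Icc (0:ℝ) 1)) :=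
    h.Vcont.mono (prod_mono (le_refl _) (prod_mono (subset_univ _) (le_refl _)))
  obtain ⟨M, hM⟩ := hK.exists_bound_of_continuousOn hc
  refine ⟨M, fun Y hY t ht q => ?_⟩
  have h1 := hM (Y, Int.fract q, t) ⟨hY, ⟨Int.fract_nonneg q, (Int.fract_lt_one q).le⟩, ht⟩
  have h2 : S.V Y q t = S.V Y (Int.fract q) t := by
    have := V_int h hY ht (Int.fract q) ⌊q⌋
    rwa [Int.fract_add_floor] at this
  rw [h2]
  simpa using h1

lemma g_gi (h : S.Ok) {Y : ℝ} (hY : Y ∈ Icc S.a S.b) (x : ℝ) : S.g Y (S.gi Y x) = x := by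
  have h1 := h.Vline Y hY x 0 ⟨le_refl _, zero_le_one⟩ 1 ⟨zero_le_one, le_refl _⟩
  have h2 : x + (0 - 1) * S.V Y x 1 = S.gi Y x := by
    simp only [Sys.gi]; ring
  rw [h2] at h1
  simp only [Sys.g]
  rw [h1]
  simp only [Sys.gi]; ring

lemma gi_g (h : S.Ok) {Y : ℝ} (hY : Y ∈ Icc S.a S.b) (x : ℝ) : S.gi Y (S.g Y x) = x := by
  have h1 := h.Vline Y hY x 1 ⟨zero_le_one, le_refl _⟩ 0 ⟨le_refl _, zero_le_one⟩
  have h2 : x + (1 - 0) * S.V Y x 0 = S.g Y x := by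
    simp only [Sys.g]; ring
  rw [h2] at h1
  simp only [Sys.gi]
  rw [h1]
  simp only [Sys.g]; ring

lemma V_g (h : S.Ok) {Y : ℝ} (hY : Y ∈ Icc S.a S.b) (x : ℝ) : S.V Y (S.g Y x) 1 = S.V Y x 0 := by
  have h1 := h.Vline Y hY x 1 ⟨zero_le_one, le_refl _⟩ 0 ⟨le_refl _, zero_le_one⟩
  have h2 : x + (1 - 0) * S.V Y x 0 = S.g Y x := by
    simp only [Sys.g]; ring
  rwa [h2] at h1

lemma mem01_0 : (0:ℝ) ∈ Icc (0:ℝ) 1 := ⟨le_refl _, zero_le_one⟩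
lemma mem01_1 : (1:ℝ) ∈ Icc (0:ℝ) 1 := ⟨zero_le_one, le_refl _⟩

lemma g_int (h : S.Ok) {Y : ℝ} (hY : Y ∈ Icc S.a S.b) (x : ℝ) (k : ℤ) :
    S.g Y (x + k) = S.g Y x + k := by
  simp only [Sys.g]
  rw [V_int h hY mem01_0]; ring

lemma gi_int (h : S.Ok) {Y : ℝ} (hY : Y ∈ Icc S.a S.b) (x : ℝ) (k : ℤ) :
    S.gi Y (x + k) = S.gi Y x + k := by
  simp only [Sys.gi]
  rw [V_int h hY mem01_1]; ring

lemma g_cont (h : S.Ok) {Y : ℝ} (hY : Y ∈ Icc S.a S.b) : Continuous (S.g Y) :=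
  continuous_id.add (V_cont_q h hY mem01_0)

lemma gi_cont (h : S.Ok) {Y : ℝ} (hY : Y ∈ Icc S.a S.b) : Continuous (S.gi Y) :=
  continuous_id.sub (V_cont_q h hY mem01_1)

lemma strictMono_of {f : ℝ → ℝ} (hc : Continuous f) (hi : Function.Injective f)
    (h1 : ∀ x, f (x + 1) = f x + 1) : StrictMono f := by
  rcases hc.strictMono_of_inj hi with h | h
  · exact h
  · exfalso
    have h2 := h (show (0:ℝ) < 0 + 1 by norm_num)
    rw [h1] at h2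
    linarith

lemma g_mono (h : S.Ok) {Y : ℝ} (hY : Y ∈ Icc S.a S.b) : StrictMono (S.g Y) :=
  strictMono_of (g_cont h hY)
    (Function.LeftInverse.injective (gi_g h hY))
    (fun x => by simpa using g_int h hY x 1)

lemma gi_mono (h : S.Ok) {Y : ℝ} (hY : Y ∈ Icc S.a S.b) : StrictMono (S.gi Y) :=
  strictMono_of (gi_cont h hY)
    (Function.LeftInverse.injective (g_gi h hY))
    (fun x => by simpa using gi_int h hY x 1)

lemma orb_zero (Y x : ℝ) : S.orb Y x 0 = x := rfl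

lemma orb_succ (h : S.Ok) {Y : ℝ} (hY : Y ∈ Icc S.a S.b) (x : ℝ) (n : ℤ) :
    S.orb Y x (n + 1) = S.g Y (S.orb Y x n) := by
  rcases n with m | m
  · show (S.g Y)^[m + 1] x = S.g Y ((S.g Y)^[m] x)
    exact Function.iterate_succ_apply' _ _ _
  · rcases m with _ | m
    · show x = S.g Y ((S.gi Y)^[0 + 1] x)
      rw [Function.iterate_succ_apply', Function.iterate_zero_apply, g_gi h hY]
    · show (S.gi Y)^[m + 1] x = S.g Y ((S.gi Y)^[m + 1 + 1] x)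
      rw [Function.iterate_succ_apply' _ (m + 1), g_gi h hY]

lemma orb_pred (h : S.Ok) {Y : ℝ} (hY : Y ∈ Icc S.a S.b) (x : ℝ) (n : ℤ) :
    S.orb Y x n = S.gi Y (S.orb Y x (n + 1)) := by
  rw [orb_succ h hY, gi_g h hY]

lemma orb_add (h : S.Ok) {Y : ℝ} (hY : Y ∈ Icc S.a S.b) (x : ℝ) (n k : ℤ) :
    S.orb Y (S.orb Y x n) k = S.orb Y x (n + k) := by
  induction k using Int.induction_on with
  | zero => rw [orb_zero, add_zero]
  | succ i ih => rw [orb_succ h hY, ih, ← add_assoc, orb_succ h hY x (n + i)]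
  | pred i ih =>
    rw [orb_pred h hY _ (-(i:ℤ) - 1), orb_pred h hY x (n + (-(i:ℤ) - 1))]
    have e1 : -(i:ℤ) - 1 + 1 = -(i:ℤ) := by ring
    have e2 : n + (-(i:ℤ) - 1) + 1 = n + -(i:ℤ) := by ring
    rw [e1, e2, ih]

lemma orb_int (h : S.Ok) {Y : ℝ} (hY : Y ∈ Icc S.a S.b) (x : ℝ) (n k : ℤ) :
    S.orb Y (x + k) n = S.orb Y x n + k := by
  induction n using Int.induction_on with
  | zero => rw [orb_zero, orb_zero]
  | succ i ih => rw [orb_succ h hY, ih, g_int h hY, orb_succ h hY x i]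
  | pred i ih =>
    rw [orb_pred h hY _ (-(i:ℤ) - 1), orb_pred h hY x (-(i:ℤ) - 1)]
    have e1 : -(i:ℤ) - 1 + 1 = -(i:ℤ) := by ring
    rw [e1, ih, gi_int h hY]

lemma orb_cont_step (h : S.Ok) {t : ℝ} (ht : t ∈ Icc (0:ℝ) 1) {f : ℝ × ℝ → ℝ}
    (hf : ContinuousOn f (Icc S.a S.b ×ˢ univ)) :
    ContinuousOn (fun z : ℝ × ℝ => S.V z.1 (f z) t) (Icc S.a S.b ×ˢ univ) := by
  have h1 : ContinuousOn (fun z : ℝ × ℝ => ((z.1, f z, t) : ℝ × ℝ × ℝ)) (Icc S.a S.b ×ˢ univ) :=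
    continuousOn_fst.prodMk (hf.prodMk continuousOn_const)
  exact h.Vcont.comp h1 (fun z hz => ⟨hz.1, mem_univ _, ht⟩)

lemma orb_cont (h : S.Ok) (n : ℤ) :
    ContinuousOn (fun z : ℝ × ℝ => S.orb z.1 z.2 n) (Icc S.a S.b ×ˢ univ) := by
  induction n using Int.induction_on with
  | zero => exact continuousOn_snd
  | succ i ih =>
    refine (ih.add (orb_cont_step h mem01_0 ih)).congr (fun z hz => ?_)
    show S.orb z.1 z.2 (i + 1) = _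
    rw [orb_succ h hz.1]
    rfl
  | pred i ih =>
    refine (ih.sub (orb_cont_step h mem01_1 ih)).congr (fun z hz => ?_)
    show S.orb z.1 z.2 (-(i:ℤ) - 1) = _
    rw [orb_pred h hz.1]
    have e1 : -(i:ℤ) - 1 + 1 = -(i:ℤ) := by ring
    rw [e1]
    rfl

theorem ft_reg : Pool.Agent.Helper76.FT.GReg := by
  intro S h
  refine ⟨fun t ht y hy => leaf_of_reg h ht hy, fun t ht q Y hY => reg_of_leaf h ht q hY,
    fun t ht s hs y hy => reg_move h ht hs hy, fun t ht s hs y hy => reg_scale h ht hs hy,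
    ?_, ?_, ?_, ?_, ?_, ?_, ?_, ?_, fun n => orb_cont h n⟩
  · obtain ⟨M, hM⟩ := V_bdd h
    refine ⟨M, fun t ht y hy => ?_⟩
    obtain ⟨Y, hY, he⟩ := leaf_of_reg h ht hy
    rw [he]
    exact hM Y hY t ht y.1
  · intro t r
    have : S.Nb t r = ⋃ y ∈ S.Reg t, {z : ℂ × ℂ | ‖z.1 - (y.1 : ℂ)‖ < r ∧ ‖z.2 - (y.2 : ℂ)‖ < r} := by
      ext z
      simp only [Sys.Nb, mem_iUnion, exists_prop]
      rfl
    rw [this]
    refine isOpen_biUnion (fun y _ => ?_)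
    have c1 : Continuous (fun z : ℂ × ℂ => ‖z.1 - (y.1 : ℂ)‖) := by fun_prop
    have c2 : Continuous (fun z : ℂ × ℂ => ‖z.2 - (y.2 : ℂ)‖) := by fun_prop
    exact (isOpen_lt c1 continuous_const).inter (isOpen_lt c2 continuous_const)
  · intro r t ht z hz
    obtain ⟨y0, hy0, h1, h2⟩ := hz
    have hc1 : Continuous (fun y : ℝ × (ℂ × ℂ) =>
        ‖y.2.1 - ((y0.1 + (y.1 - t) * y0.2 : ℝ) : ℂ)‖) := by fun_prop
    have hc2 : Continuous (fun y : ℝ × (ℂ × ℂ) => ‖y.2.2 - ((y0.2 : ℝ) : ℂ)‖) := by fun_prop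
    have h1' : ‖((t, z) : ℝ × (ℂ × ℂ)).2.1
        - ((y0.1 + (((t, z) : ℝ × (ℂ × ℂ)).1 - t) * y0.2 : ℝ) : ℂ)‖ < r := by simpa using h1
    have e1 := (hc1.tendsto (t, z)).eventually (gt_mem_nhds h1')
    have e2 := (hc2.tendsto (t, z)).eventually (gt_mem_nhds h2)
    have e3 : ∀ᶠ y : ℝ × (ℂ × ℂ) in 𝓝[Icc (0:ℝ) 1 ×ˢ univ] (t, z),
        y ∈ Icc (0:ℝ) 1 ×ˢ (univ : Set (ℂ × ℂ)) := eventually_mem_nhdsWithin
    filter_upwards [mem_nhdsWithin_of_mem_nhds e1, mem_nhdsWithin_of_mem_nhds e2, e3]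
      with y k1 k2 k3
    exact ⟨(y0.1 + (y.1 - t) * y0.2, y0.2), reg_move h ht k3.1 hy0, k1, k2⟩
  · intro r t ht z hz
    obtain ⟨y, hy, h1, h2⟩ := hz
    refine ⟨⟨(y.1 + 1, y.2), ?_, ?_, h2⟩, ⟨(y.1 - 1, y.2), ?_, ?_, h2⟩, ⟨y, hy, ?_, ?_⟩⟩
    · have k1 := h.Vper S.a (a_mem h) y.1 t ht
      have k2 := h.Vper S.b (b_mem h) y.1 t ht
      exact ⟨by rw [k1]; exact hy.1, by rw [k2]; exact hy.2⟩
    · have : z.1 + 1 - ((y.1 + 1 : ℝ) : ℂ) = z.1 - (y.1 : ℂ) := by push_cast; ring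
      show ‖z.1 + 1 - ((y.1 + 1 : ℝ) : ℂ)‖ < r
      rw [this]; exact h1
    · have k1 := h.Vper S.a (a_mem h) (y.1 - 1) t ht
      have k2 := h.Vper S.b (b_mem h) (y.1 - 1) t ht
      rw [sub_add_cancel] at k1 k2
      exact ⟨by rw [← k1]; exact hy.1, by rw [← k2]; exact hy.2⟩
    · have : z.1 - 1 - ((y.1 - 1 : ℝ) : ℂ) = z.1 - (y.1 : ℂ) := by push_cast; ring
      show ‖z.1 - 1 - ((y.1 - 1 : ℝ) : ℂ)‖ < r
      rw [this]; exact h1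
    · have : (starRingEnd ℂ) z.1 - (y.1 : ℂ) = (starRingEnd ℂ) (z.1 - (y.1 : ℂ)) := by simp
      show ‖(starRingEnd ℂ) z.1 - (y.1 : ℂ)‖ < r
      rw [this, Complex.norm_conj]; exact h1
    · have : (starRingEnd ℂ) z.2 - (y.2 : ℂ) = (starRingEnd ℂ) (z.2 - (y.2 : ℂ)) := by simp
      show ‖(starRingEnd ℂ) z.2 - (y.2 : ℂ)‖ < r
      rw [this, Complex.norm_conj]; exact h2
  · intro t ht s hs q v hq hv
    have hm := reg_move h ht hs hq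
    refine ⟨(q + (s - t) * v.re, v.re), hm, ?_, ?_⟩
    · have e : (q : ℂ) + (s - t) * v - ((q + (s - t) * v.re : ℝ) : ℂ)
          = (((s - t) * v.im : ℝ) : ℂ) * I := by
        have hv0 : v = v.re + v.im * I := (Complex.re_add_im v).symm
        push_cast
        linear_combination ((s : ℂ) - t) * hv0
      show ‖(q : ℂ) + (s - t) * v - ((q + (s - t) * v.re : ℝ) : ℂ)‖ < S.r
      rw [e, norm_mul, Complex.norm_I, mul_one, Complex.norm_real, Real.norm_eq_abs, abs_mul]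
      have h1 : |s - t| ≤ 1 := by
        rw [abs_le]; constructor <;> linarith [hs.1, hs.2, ht.1, ht.2]
      calc |s - t| * |v.im| ≤ 1 * |v.im| := mul_le_mul_of_nonneg_right h1 (abs_nonneg _)
        _ = |v.im| := one_mul _
        _ < S.r := hv
    · have e : v - ((v.re : ℝ) : ℂ) = ((v.im : ℝ) : ℂ) * I := by
        have hv0 : v = v.re + v.im * I := (Complex.re_add_im v).symm
        linear_combination hv0
      show ‖v - ((v.re : ℝ) : ℂ)‖ < S.r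
      rw [e, norm_mul, Complex.norm_I, mul_one, Complex.norm_real, Real.norm_eq_abs]
      exact hv
  · intro Y hY
    exact ⟨g_mono h hY, g_cont h hY, gi_mono h hY, gi_cont h hY, fun x =>
      ⟨g_gi h hY x, gi_g h hY x, by simpa using g_int h hY x 1, by simpa using gi_int h hY x 1⟩⟩
  · intro Y hY Y' hY' hlt x
    have k0 := h.Vmono Y hY Y' hY' hlt x 0 mem01_0
    have k1 := h.Vmono Y hY Y' hY' hlt x 1 mem01_1
    simp only [Sys.g, Sys.gi]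
    exact ⟨by linarith, by linarith⟩
  · intro Y hY x n
    refine ⟨orb_succ h hY x n, orb_pred h hY x n, ?_, ?_, fun k => orb_add h hY x n k,
      fun k => orb_int h hY x n k⟩
    · rw [orb_succ h hY]; rfl
    · rw [orb_succ h hY, V_g h hY]; rfl

end Pool.Agent.Helper65.FT
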